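import Pool.Agent.Run7.h614.PG.Inf
import Pool.Agent.N298.PGA.Upper2
import Pool.Agent.N298.PGA.Num

/-!
# The order of decay of the errors of the Pure Greedy Algorithm

Let `v` be the root in `(0, 1)` of `v ^ v = (1 - v ^ 2) ^ (1 + v)` and `α = (1 - v) / (2 (1 + v))`, so
that `0.18275 < α < 0.18280`. The largest error `γ(m)` of the Pure Greedy Algorithm after `m` steps
is of the exact order `m ^ (-α)`, with the same constants in all real inner product spaces `H`,
complete or not, of dimension at least `m + 2`; in particular in all infinite-dimensional Hilbert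
spaces.

The bound from below holds already for elements `f = (g + h) / 2` with two members `g`, `h` of the
dictionary, simultaneously after `1, 2, …, m` steps; in a complete space of infinite dimension one
dictionary and one such `f` are bad for all `m`.

The starting files `Pool/Agent/N298/PGA` contain the bound from above for every dictionary
(`N298.PGA.upper`) and the bound from below for complete spaces of infinite dimension
(`N298.PGA.lower`), the difficult parts. They are combined here with the transport to spaces of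
dimension at least `m + 2` (`Pool/Agent/Run7/h614/PG`). In a space of dimension at least `m + 2` one
takes the critical sequence in the subspace spanned by `g`, `h` and the first `m` choices, and adds
the unit vectors orthogonal to this subspace to the dictionary.
-/

set_option autoImplicit false

namespace Pool.Agent.Results.MP_19b6b2_an.OrderOfDecay

open N298.PGA

universe u

/-- **The order of decay of `γ(m)`.** -/
theorem result :
    (∃! v : ℝ, v ∈ Set.Ioo (0 : ℝ) 1 ∧ v ^ v = (1 - v ^ 2) ^ (1 + v)) ∧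
    ∀ v : ℝ, v ∈ Set.Ioo (0 : ℝ) 1 → v ^ v = (1 - v ^ 2) ^ (1 + v) → ∀ α : ℝ,
      α = (1 - v) / (2 * (1 + v)) →
      0.18275 < α ∧ α < 0.18280 ∧ ∃ c C : ℝ, 0 < c ∧ c ≤ C ∧
        (∀ (H : Type u) [NormedAddCommGroup H] [InnerProductSpace ℝ H] (m : ℕ), 1 ≤ m →
          (∀ e ∈ errSet H m, e ≤ C * (m : ℝ) ^ (-α)) ∧
          (((m + 2 : ℕ) : Cardinal) ≤ Module.rank ℝ H →
            c * (m : ℝ) ^ (-α) ≤ gam H m ∧ gam H m ≤ C * (m : ℝ) ^ (-α) ∧
            ∃ (D : Set H) (g h : H) (φ G : ℕ → H), IsDictionary D ∧ g ∈ D ∧ h ∈ D ∧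
              IsPGA D ((1 / 2 : ℝ) • (g + h)) m φ G ∧
              ∀ j : ℕ, 1 ≤ j → j ≤ m → c * (j : ℝ) ^ (-α) ≤ ‖(1 / 2 : ℝ) • (g + h) - G j‖)) ∧
        (∀ (H : Type u) [NormedAddCommGroup H] [InnerProductSpace ℝ H] [CompleteSpace H],
          ¬ FiniteDimensional ℝ H → ∃ (D : Set H) (g h : H) (φ G : ℕ → H), IsDictionary D ∧
            g ∈ D ∧ h ∈ D ∧ (∀ m : ℕ, IsPGA D ((1 / 2 : ℝ) • (g + h)) m φ G) ∧
            ∀ m : ℕ, 1 ≤ m → c * (m : ℝ) ^ (-α) ≤ ‖(1 / 2 : ℝ) • (g + h) - G m‖) := by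
  constructor
  · obtain ⟨v, hv⟩ := exists_root
    refine ⟨v, ⟨⟨hv.pos, hv.lt_one⟩, hv.eq⟩, ?_⟩
    rintro w ⟨⟨h0, h1⟩, h2⟩
    exact root_unique ⟨h0, h1, h2⟩ hv
  · rintro v hv01 hveq α rfl
    have hv : IsRoot v := ⟨hv01.1, hv01.2, hveq⟩
    have hlo := hv.lo2
    have hhi := hv.hi2
    have hv0 := hv.pos
    refine ⟨?_, ?_, ?_⟩
    · rw [lt_div_iff₀ (by linarith)]
      norm_num at hlo hhi ⊢
      linarith
    · rw [div_lt_iff₀ (by linarith)]
      norm_num at hlo hhi ⊢
      linarith
    · obtain ⟨c, hc, hlow⟩ := Pool.Agent.Run7.h614.PG.exists_crit.{u} hv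
      obtain ⟨c', hc', hlow'⟩ := Pool.Agent.Run7.h614.PG.exists_crit.{0} hv
      obtain ⟨C, hC, hup⟩ := upper.{u} hv
      refine ⟨min c c', max (min c c') C, lt_min hc hc', le_max_left _ _, ?_, ?_⟩
      · intro H _ _ m hm
        have hub : ∀ e ∈ errSet H m,
            e ≤ max (min c c') C * (m : ℝ) ^ (-((1 - v) / (2 * (1 + v)))) := by
          rintro e ⟨D, f, φ, G, h1, h2, h3, rfl⟩
          exact (hup H D f m φ G h1 h2 h3 hm).trans
            (mul_le_mul_of_nonneg_right (le_max_right _ _) (by positivity))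
        refine ⟨hub, fun hH => ?_⟩
        -- the critical sequence in `ℓ²`
        have hinf : ¬ FiniteDimensional ℝ (lp (fun _ : ℕ => ℝ) 2) :=
          Pool.Agent.Run7.h614.PG.lp_inf
        obtain ⟨f, g, h, φ, G, hcr, -, hb⟩ := hlow' (lp (fun _ : ℕ => ℝ) 2) hinf
        obtain ⟨D, g', h', φ', G', k1, k2, k3, k4, k5⟩ :=
          Pool.Agent.Run7.h614.PG.exists_dict hcr m hH
        have hbd : ∀ j : ℕ, 1 ≤ j → j ≤ m →
            min c c' * (j : ℝ) ^ (-((1 - v) / (2 * (1 + v)))) ≤
              ‖(1 / 2 : ℝ) • (g' + h') - G' j‖ := by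
          intro j hj hjm
          rw [k5 j hjm]
          exact (mul_le_mul_of_nonneg_right (min_le_right _ _) (by positivity)).trans (hb j hj)
        have hmem : ‖(1 / 2 : ℝ) • (g' + h') - G' m‖ ∈ errSet H m :=
          ⟨D, _, φ', G', k1, Pool.Agent.Run7.h614.PG.mean_mem k2 k3, k4, rfl⟩
        refine ⟨?_, ?_, D, g', h', φ', G', k1, k2, k3, k4, hbd⟩
        · exact (hbd m hm le_rfl).trans (le_csSup ⟨_, hub⟩ hmem)
        · exact csSup_le ⟨_, hmem⟩ hub
      · intro H _ _ _ hH
        obtain ⟨f, g, h, φ, G, hcr, horth, hb⟩ := hlow H hH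
        obtain ⟨D, k1, k2, k3, k4⟩ := Pool.Agent.Run7.h614.PG.exists_dict_inf hcr horth
        refine ⟨D, g, h, φ, G, k1, k2, k3, fun m => ?_, fun m hm => ?_⟩
        · rw [← hcr.hf]
          exact k4 m
        · rw [← hcr.hf]
          exact (mul_le_mul_of_nonneg_right (min_le_left _ _) (by positivity)).trans (hb m hm)

end Pool.Agent.Results.MP_19b6b2_an.OrderOfDecay
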